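import Mathlib.Algebra.Ring.Subring.Basic
import Mathlib.Algebra.Field.Basic

/-!
# The centralizer of an element of a division ring is a division ring
-/

set_option autoImplicit false

namespace CG37

/-- the centralizer of an element of a division ring is a division ring -/
noncomputable instance centDiv {D : Type} [DivisionRing D] (θ : D) :
    DivisionRing (Subring.centralizer ({θ} : Set D)) :=
  DivisionRing.ofIsUnitOrEqZero (fun a => by
    by_cases h : a = 0
    · exact Or.inr h
    · left
      have ha : (a : D) ≠ 0 := fun h0 => h (Subtype.ext h0)
      have hmem : (a : D)⁻¹ ∈ Subring.centralizer ({θ} : Set D) := by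
        rw [Subring.mem_centralizer_iff]
        intro g hg
        rw [Set.mem_singleton_iff] at hg
        subst hg
        have h1 : g * (a : D) = a * g := Subring.mem_centralizer_iff.1 a.2 g rfl
        apply mul_left_cancel₀ ha
        rw [← mul_assoc, ← h1, mul_assoc, mul_inv_cancel₀ ha, mul_one, ← mul_assoc,
          mul_inv_cancel₀ ha, one_mul]
      exact IsUnit.of_mul_eq_one ⟨_, hmem⟩ (Subtype.ext (mul_inv_cancel₀ ha)))

end CG37
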