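import Pool.Agent.BI29.Length
import Pool.Agent.CG37.Cent

/-!
# A division ring of finite left dimension over the centralizer of an element

If a division ring `D` has finite left dimension over the centralizer of `θ`, then `θ` is algebraic
over the centre of `D`.
-/

set_option autoImplicit false

namespace CG37

open Finset Module BI29 MulOpposite

/-- the space of the vectors `a` with `∑ θ ^ i x a_i = 0` for all `x` -/
def relSpace {D : Type} [DivisionRing D] (θ : D) (n : ℕ) : Submodule D (Fin n → D) where
  carrier := {a | ∀ x : D, ∑ i : Fin n, θ ^ (i : ℕ) * x * a i = 0}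
  add_mem' := by
    intro a b ha hb x
    have h1 := ha x
    have h2 := hb x
    have h3 : ∑ i : Fin n, θ ^ (i : ℕ) * x * (a + b) i =
        ∑ i : Fin n, θ ^ (i : ℕ) * x * a i + ∑ i : Fin n, θ ^ (i : ℕ) * x * b i := by
      rw [← Finset.sum_add_distrib]
      refine Finset.sum_congr rfl fun i _ => ?_
      rw [Pi.add_apply, mul_add]
    rw [h3, h1, h2, add_zero]
  zero_mem' := by
    intro x
    refine Finset.sum_eq_zero fun i _ => ?_
    rw [Pi.zero_apply, mul_zero]
  smul_mem' := by
    intro c a ha x
    have h1 := ha (x * c)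
    rw [← h1]
    refine Finset.sum_congr rfl fun i _ => ?_
    rw [Pi.smul_apply, smul_eq_mul]
    simp only [mul_assoc]

theorem mem_relSpace {D : Type} [DivisionRing D] (θ : D) (n : ℕ) (a : Fin n → D) :
    a ∈ relSpace θ n ↔ ∀ x : D, ∑ i : Fin n, θ ^ (i : ℕ) * x * a i = 0 := Iff.rfl

/-- more unknowns than equations (unknowns on the right) -/
theorem exists_rel {D : Type} [DivisionRing D] (n : ℕ) (v : Fin (n + 1) → Fin n → D) :
    ∃ a : Fin (n + 1) → D, a ≠ 0 ∧ ∀ l : Fin n, ∑ i : Fin (n + 1), v i l * a i = 0 := by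
  classical
  have hnot : ¬ LinearIndependent Dᵐᵒᵖ (fun (i : Fin (n + 1)) (l : Fin n) => op (v i l)) := by
    intro hli
    have h1 := hli.fintype_card_le_finrank
    rw [Module.finrank_fin_fun, Fintype.card_fin] at h1
    omega
  obtain ⟨g, hg, i₀, hi₀⟩ := Fintype.not_linearIndependent_iff.1 hnot
  refine ⟨fun i => unop (g i), fun h => hi₀ ?_, fun l => ?_⟩
  · have h1 := congrFun h i₀
    exact unop_injective h1
  · have h1 := congrFun hg l
    rw [Finset.sum_apply] at h1
    have h2 := congrArg unop h1
    rw [Pi.zero_apply, unop_zero, Finset.unop_sum] at h2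
    rw [← h2]
    refine Finset.sum_congr rfl fun i _ => ?_
    rw [Pi.smul_apply, smul_eq_mul, unop_mul, unop_op]

theorem alg_of_fin {D : Type} [DivisionRing D] (θ : D)
    (hfin : FiniteDimensional (Subring.centralizer ({θ} : Set D)) D) :
    ∃ P : Polynomial (Subring.center D), P ≠ 0 ∧ Polynomial.aeval θ P = 0 := by
  classical
  obtain ⟨n, hn⟩ : ∃ n, n = finrank (Subring.centralizer ({θ} : Set D)) D := ⟨_, rfl⟩
  let e : Basis (Fin n) (Subring.centralizer ({θ} : Set D)) D :=
    (Module.finBasis (Subring.centralizer ({θ} : Set D)) D).reindex (finCongr hn.symm)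
  obtain ⟨a, ha0, ha⟩ := exists_rel n
    (fun i l => θ ^ (i : ℕ) * e l)
  have hpow : ∀ (c : Subring.centralizer ({θ} : Set D)) (i : ℕ),
      θ ^ i * (c : D) = (c : D) * θ ^ i := by
    intro c i
    have h1 : Commute θ (c : D) := Subring.mem_centralizer_iff.1 c.2 θ rfl
    exact h1.pow_left i
  have hmem : a ∈ relSpace θ (n + 1) := by
    rw [mem_relSpace]
    intro x
    have hx := e.sum_repr x
    calc ∑ i : Fin (n + 1), θ ^ (i : ℕ) * x * a i
        = ∑ i : Fin (n + 1), ∑ l, (e.repr x l : D) * (θ ^ (i : ℕ) * e l * a i) := by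
          refine Finset.sum_congr rfl fun i _ => ?_
          conv_lhs => rw [← hx]
          rw [Finset.mul_sum, Finset.sum_mul]
          refine Finset.sum_congr rfl fun l _ => ?_
          rw [Subring.smul_def, smul_eq_mul, ← mul_assoc, hpow]
          simp only [mul_assoc]
      _ = ∑ l, (e.repr x l : D) * ∑ i : Fin (n + 1), θ ^ (i : ℕ) * e l * a i := by
          rw [Finset.sum_comm]
          refine Finset.sum_congr rfl fun l _ => ?_
          rw [Finset.mul_sum]
      _ = 0 := by
          refine Finset.sum_eq_zero fun l _ => ?_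
          rw [ha l, mul_zero]
  have hbot : relSpace θ (n + 1) ≠ ⊥ := by
    intro h
    rw [h] at hmem
    exact ha0 hmem
  obtain ⟨d, hd, hd0, hdc⟩ := exists_central_vector _ hbot (by
    intro y b hb x
    have h1 := hb x
    have h2 := congrArg (· * y) h1
    simp only [zero_mul, Finset.sum_mul] at h2
    rw [← h2]
    refine Finset.sum_congr rfl fun i _ => ?_
    simp only [mul_assoc])
  have hone := (mem_relSpace θ _ d).1 hd 1
  refine ⟨∑ i : Fin (n + 1),
    Polynomial.monomial (i : ℕ) (⟨d i, hdc i⟩ : Subring.center D), fun h => hd0 ?_, ?_⟩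
  · funext i
    have h1 := congrArg (fun P => Polynomial.coeff P (i : ℕ)) h
    simp only [Polynomial.finsetSum_coeff, Polynomial.coeff_monomial, Polynomial.coeff_zero] at h1
    rw [Finset.sum_eq_single i (fun b _ hb => if_neg (fun h2 => hb (Fin.ext h2)))
      (fun h2 => absurd (Finset.mem_univ i) h2), if_pos rfl] at h1
    exact congrArg Subtype.val h1
  · rw [map_sum, ← hone]
    refine Finset.sum_congr rfl fun i _ => ?_
    rw [Polynomial.aeval_monomial, mul_one]
    have h1 : d i * θ ^ (i : ℕ) = θ ^ (i : ℕ) * d i :=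
      (Subring.mem_center_iff.1 (hdc i) (θ ^ (i : ℕ))).symm
    exact h1

end CG37
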