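import Pool.Agent.FD29.Main

/-!
# The case of elements that are algebraic over the centre of the division ring of fractions
-/

set_option autoImplicit false

namespace CG37

open Finset Module FD29

section graded

variable {k A0 A : Type} [Field k] [CommRing A0] [IsDomain A0] [Algebra k A0] [Ring A]
  [Algebra k A] {F : ℕ → Submodule k A} {σ : ℕ → A → A0} {𝒜 : ℕ → Submodule k A0}
  [GradedAlgebra 𝒜]

/-- finitely many symbols generate the graded algebra -/
theorem exists_sym_gen (df : Defo 𝒜 F σ) [Algebra.FiniteType k A0] :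
    ∃ T : Finset A0, Algebra.adjoin k (T : Set A0) = ⊤ ∧
      ∀ y ∈ T, ∃ i, ∃ a ∈ F i, σ i a = y := by
  classical
  obtain ⟨S, hS⟩ := (Algebra.FiniteType.out : (⊤ : Subalgebra k A0).FG)
  refine ⟨S.biUnion fun g => (DirectSum.decompose 𝒜 g).support.image
    fun i => (DirectSum.decompose 𝒜 g i : A0), ?_, ?_⟩
  · rw [eq_top_iff, ← hS]
    refine Algebra.adjoin_le fun g hg => ?_
    rw [SetLike.mem_coe, ← DirectSum.sum_support_decompose 𝒜 g]
    refine Subalgebra.sum_mem _ fun i hi => Algebra.subset_adjoin ?_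
    rw [Finset.mem_coe, mem_biUnion]
    exact ⟨g, hg, mem_image_of_mem _ hi⟩
  · intro y hy
    rw [mem_biUnion] at hy
    obtain ⟨g, _, hy⟩ := hy
    rw [mem_image] at hy
    obtain ⟨i, _, rfl⟩ := hy
    obtain ⟨a, ha, hσ⟩ := df.surj i _ (DirectSum.decompose 𝒜 g i).2
    exact ⟨i, a, ha, hσ⟩

/-- a nontrivial relation gives algebraic dependence of symbols -/
theorem isAlgebraic_sym (h : Filt F σ) (B : Subalgebra k A) {a : A} {i : ℕ} (ha : a ∈ F i)
    (s : Finset ℕ) (c : ℕ → A) (hc : ∀ m ∈ s, c m ∈ B) (h0 : ∑ m ∈ s, c m * a ^ m = 0)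
    (hne : ∃ m ∈ s, c m ≠ 0) : IsAlgebraic (grB F σ B) (σ i a) := by
  classical
  by_contra hcon
  have htr : Transcendental (grB F σ B) (σ i a) := hcon
  have hind : AlgebraicIndependent (grB F σ B)
      (fun l : Fin 1 => σ ((fun _ => i) l) ((fun _ => a) l)) := by
    rw [algebraicIndependent_unique_type_iff]
    exact htr
  have hinj : Function.Injective (fun (m : ℕ) (_ : Fin 1) => m) := fun m m' hmm =>
    congrFun hmm 0
  have h1 := h.box_injective B (fun _ : Fin 1 => a) (fun _ => i) (fun _ => ha) hind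
    (s.image fun m => fun _ : Fin 1 => m) (fun J => c (J 0)) (by
      intro J hJ
      rw [mem_image] at hJ
      obtain ⟨m, hm, rfl⟩ := hJ
      exact hc m hm) (by
      rw [Finset.sum_image fun m _ m' _ hmm => hinj hmm]
      rw [← h0]
      refine Finset.sum_congr rfl fun m _ => ?_
      simp [mon])
  obtain ⟨m, hm, hne⟩ := hne
  exact hne (h1 (fun _ => m) (mem_image_of_mem _ hm))

end graded

section denominators

variable {k A D : Type} [Field k] [Ring A] [Algebra k A] [DivisionRing D] [Algebra k D]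

/-- a common denominator for finitely many central elements -/
theorem exists_denom (j : A →ₐ[k] D) (hj : Function.Injective j)
    (hfrac : ∀ z : D, ∃ a b : A, b ≠ 0 ∧ z * j b = j a) (Z : Finset (Subring.center D)) :
    ∃ y : A, y ≠ 0 ∧ ∀ ζ ∈ Z, ∃ c : A, j c = (ζ : D) * j y := by
  classical
  induction Z using Finset.induction_on with
  | empty =>
    refine ⟨1, ?_, by simp⟩
    intro h
    have : j (1 : A) = 0 := by rw [h, map_zero]
    rw [map_one] at this
    exact one_ne_zero this
  | insert ζ Z hζ ih =>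
    obtain ⟨y, hy, hZ⟩ := ih
    obtain ⟨a, b, hb, hab⟩ := hfrac (ζ : D)
    refine ⟨y * b, ?_, ?_⟩
    · intro h
      have h1 : j y * j b = 0 := by rw [← map_mul, h, map_zero]
      rcases mul_eq_zero.1 h1 with h2 | h2
      · exact hy (hj (by rw [h2, map_zero]))
      · exact hb (hj (by rw [h2, map_zero]))
    · intro ζ' hζ'
      rw [mem_insert] at hζ'
      rcases hζ' with rfl | hζ'
      · refine ⟨y * a, ?_⟩
        rw [map_mul, map_mul, ← hab, ← mul_assoc, ← mul_assoc,
          Subring.mem_center_iff.1 ζ'.2 (j y)]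
      · obtain ⟨c, hc⟩ := hZ ζ' hζ'
        exact ⟨c * b, by rw [map_mul, map_mul, hc, mul_assoc]⟩

end denominators

variable {k A0 A : Type} [Field k] [CommRing A0] [IsDomain A0] [Algebra k A0] [Ring A]
  [Algebra k A] {F : ℕ → Submodule k A} {σ : ℕ → A → A0} {𝒜 : ℕ → Submodule k A0}
  [GradedAlgebra 𝒜]

theorem std_of_alg (df : Defo 𝒜 F σ) [Algebra.FiniteType k A0] {p : ℕ} [hp : Fact p.Prime]
    [CharP k p] {D : Type} [DivisionRing D] [Algebra k D] (j : A →ₐ[k] D)
    (hj : Function.Injective j) (hfrac : ∀ z : D, ∃ a b : A, b ≠ 0 ∧ z * j b = j a)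
    (halg : ∀ a : A, ∃ P : Polynomial (Subring.center D), P ≠ 0 ∧ Polynomial.aeval (j a) P = 0) :
    ∃ n, StdId A n := by
  classical
  have h := df.filt
  obtain ⟨T, hT, hTσ⟩ := exists_sym_gen df
  choose! dg hdg using hTσ
  choose! lf hlf using hdg
  choose P hP0 hP using halg
  obtain ⟨y, hy, hden⟩ := exists_denom j hj hfrac
    (T.biUnion fun t => (P (lf t)).support.image fun m => (P (lf t)).coeff m)
  -- the commutative subalgebra
  set S : Set A := {x | ∃ ζ : Subring.center D, j x = (ζ : D) * j y} with hS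
  have hSc : ∀ x ∈ S, ∀ x' ∈ S, x * x' = x' * x := by
    rintro x ⟨ζ, hζ⟩ x' ⟨ζ', hζ'⟩
    apply hj
    have h1 := Subring.mem_center_iff.1 ζ.2
    have h2 := Subring.mem_center_iff.1 ζ'.2
    rw [map_mul, map_mul, hζ, hζ']
    calc (ζ : D) * j y * (ζ' * j y) = ζ * (j y * ζ') * j y := by simp only [mul_assoc]
      _ = (ζ * ζ') * j y * j y := by rw [h2 (j y)]; simp only [mul_assoc]
      _ = (ζ' * ζ) * j y * j y := by rw [h2 (ζ : D)]
      _ = ζ' * (j y * ζ) * j y := by rw [h1 (j y)]; simp only [mul_assoc]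
      _ = _ := by simp only [mul_assoc]
  set B := Algebra.adjoin k S with hB
  letI : CommRing B := Algebra.adjoinCommRingOfComm k hSc
  have hBc : ∀ x ∈ B, ∀ x' ∈ B, x * x' = x' * x := by
    intro x hx x' hx'
    exact congrArg Subtype.val (mul_comm (⟨x, hx⟩ : B) ⟨x', hx'⟩)
  -- the generators are algebraic over the symbols of `B`
  have halgT : ∀ t ∈ T, IsAlgebraic (grB F σ B) t := by
    intro t ht
    obtain ⟨hF, hσ⟩ := hlf t ht
    have hex : ∀ m, ∃ c : A, c ∈ B ∧ j c = ((P (lf t)).coeff m : D) * j y := by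
      intro m
      by_cases hm : m ∈ (P (lf t)).support
      · obtain ⟨c, hc⟩ := hden ((P (lf t)).coeff m) (by
          rw [mem_biUnion]
          exact ⟨t, ht, mem_image_of_mem _ hm⟩)
        exact ⟨c, Algebra.subset_adjoin ⟨_, hc⟩, hc⟩
      · rw [Polynomial.notMem_support_iff] at hm
        exact ⟨0, B.zero_mem, by rw [hm, map_zero, ZeroMemClass.coe_zero, zero_mul]⟩
    choose c hcB hc using hex
    rw [← hσ]
    refine isAlgebraic_sym h B hF (P (lf t)).support c (fun m _ => hcB m) ?_ ?_
    · apply hj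
      rw [map_zero, map_sum]
      have h1 := hP (lf t)
      rw [Polynomial.aeval_eq_sum_range' (n := (P (lf t)).natDegree + 1) (Nat.lt_succ_self _)] at h1
      have h2 : ∑ m ∈ (P (lf t)).support, j (c m * lf t ^ m) =
          ∑ m ∈ range ((P (lf t)).natDegree + 1), j (c m * lf t ^ m) := by
        refine Finset.sum_subset Polynomial.supp_subset_range_natDegree_succ ?_
        intro m _ hm
        rw [Polynomial.notMem_support_iff] at hm
        rw [map_mul, hc, hm, ZeroMemClass.coe_zero, zero_mul, zero_mul]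
      rw [h2]
      have h3 : ∑ m ∈ range ((P (lf t)).natDegree + 1), j (c m * lf t ^ m) =
          j y * ∑ m ∈ range ((P (lf t)).natDegree + 1), (P (lf t)).coeff m • j (lf t) ^ m := by
        rw [Finset.mul_sum]
        refine Finset.sum_congr rfl fun m _ => ?_
        rw [map_mul, hc, map_pow, ← Subring.mem_center_iff.1 ((P (lf t)).coeff m).2 (j y),
          mul_assoc]
        rfl
      rw [h3, h1, mul_zero]
    · obtain ⟨m, hm⟩ := Polynomial.support_nonempty.2 (hP0 (lf t))
      refine ⟨m, hm, fun h0 => ?_⟩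
      have h1 := hc m
      rw [h0, map_zero] at h1
      rcases mul_eq_zero.1 h1.symm with h2 | h2
      · rw [Polynomial.mem_support_iff] at hm
        exact hm (Subtype.ext h2)
      · exact hy (hj (by rw [h2, map_zero]))
  have halgG : Algebra.IsAlgebraic (grB F σ B) A0 := by
    refine ⟨fun x => ?_⟩
    have hle : Algebra.adjoin k (T : Set A0) ≤
        (Subalgebra.algebraicClosure (grB F σ B) A0).restrictScalars k :=
      Algebra.adjoin_le fun t ht => halgT t ht
    have hx : x ∈ Algebra.adjoin k (T : Set A0) := by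
      rw [hT]
      exact Algebra.mem_top
    exact hle hx
  refine df.std_of_comm (p := p) B hBc ?_
  have h1 := trdeg_add_eq k (grB F σ B) (A := A0)
  rw [trdeg_eq_zero (R := grB F σ B) (A := A0), add_zero] at h1
  rw [← h1]
  exact self_le_add_right _ _

end CG37
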