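import Pool.Agent.FD29.Dim

/-!
# Abstract divergence (M1)
-/

set_option autoImplicit false

namespace CG37

open Finset Module FD29

/-- vectors outside the smaller filtration steps are independent modulo `X m` -/
theorem e1_card {C V : Type} [DivisionRing C] [AddCommGroup V] [Module C V]
    (X : ℕ → Submodule C V) (hmono : Monotone X) (hfin : ∀ m, FiniteDimensional C (X m))
    (e : ℕ) (he : 1 ≤ e) (v : ℕ → V) (hv : ∀ l, 1 ≤ l → v l ∈ X (l * e))
    (hv' : ∀ l, 1 ≤ l → v l ∉ X (l * e - 1)) (m : ℕ) (Q : Finset ℕ)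
    (hQ : ∀ l ∈ Q, 1 ≤ l ∧ m < l * e) :
    finrank C (X m) + Q.card ≤
      finrank C ↥(X m ⊔ Submodule.span C (v '' (Q : Set ℕ))) := by
  classical
  induction Q using Finset.induction_on_max with
  | empty =>
    rw [Finset.card_empty, Finset.coe_empty, Set.image_empty, Submodule.span_empty, sup_bot_eq,
      add_zero]
  | insert l Q hl ih =>
    have hlQ : l ∉ Q := fun h => lt_irrefl l (hl l h)
    have hQ' : ∀ i ∈ Q, 1 ≤ i ∧ m < i * e := fun i hi => hQ i (Finset.mem_insert_of_mem hi)
    have hl1 := hQ l (Finset.mem_insert_self l Q)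
    have h1 := ih hQ'
    set S' : Submodule C V := X m ⊔ Submodule.span C (v '' (Q : Set ℕ)) with hS'
    set S : Submodule C V := X m ⊔ Submodule.span C (v '' ((insert l Q : Finset ℕ) : Set ℕ))
      with hS
    have hS'le : S' ≤ X (l * e - 1) := by
      rw [hS']
      refine sup_le (hmono (by omega)) (Submodule.span_le.2 ?_)
      rintro _ ⟨i, hi, rfl⟩
      have hi' := hQ' i hi
      have hil := hl i hi
      refine hmono ?_ (hv i hi'.1)
      have h2 : (i + 1) * e ≤ l * e := Nat.mul_le_mul_right e hil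
      rw [add_mul, one_mul] at h2
      omega
    have hle : S' ≤ S := by
      rw [hS', hS]
      refine sup_le_sup_left (Submodule.span_mono (Set.image_mono ?_)) _
      intro i hi
      exact Finset.mem_coe.2 (Finset.mem_insert_of_mem (Finset.mem_coe.1 hi))
    have hvS : v l ∈ S := by
      rw [hS]
      refine Submodule.mem_sup_right (Submodule.subset_span ⟨l, ?_, rfl⟩)
      exact Finset.mem_coe.2 (Finset.mem_insert_self l Q)
    have hlt : S' < S := by
      refine lt_of_le_of_ne hle fun h => ?_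
      exact hv' l hl1.1 (hS'le (h ▸ hvS))
    have : FiniteDimensional C (X m) := hfin m
    have : FiniteDimensional C
        ↥(Submodule.span C (v '' ((insert l Q : Finset ℕ) : Set ℕ))) :=
      FiniteDimensional.span_of_finite C ((Finset.finite_toSet _).image v)
    have : FiniteDimensional C S := by
      rw [hS]
      infer_instance
    have h2 := Submodule.finrank_lt_finrank_of_lt hlt
    rw [Finset.card_insert_of_notMem hlQ]
    omega

/-- one step of the inequality -/
theorem e1_step {C V : Type} [DivisionRing C] [AddCommGroup V] [Module C V] (p : ℕ)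
    (X : ℕ → Submodule C V) (hmono : Monotone X)
    (hfin : ∀ m, FiniteDimensional C (X m))
    (T : V →ₗ[C] V) (M : ℕ) (hT : ∀ m, ∀ x ∈ X m, T x ∈ X (m + M)) (v₀ : V)
    (hker : ∀ x, T x = 0 → x ∈ Submodule.span C ({v₀} : Set V)) (e : ℕ) (he : 1 ≤ e) (v : ℕ → V)
    (hv : ∀ l, 1 ≤ l → v l ∈ X (l * e)) (hv' : ∀ l, 1 ≤ l → v l ∉ X (l * e - 1))
    (hTv : ∀ l, 1 ≤ l → ∀ b, l * e + M ≤ b + p ^ padicValNat p l → T (v l) ∈ X b)
    (m : ℕ) (Q : Finset ℕ)
    (hQ : ∀ l ∈ Q, 1 ≤ l ∧ m < l * e ∧ l * e ≤ m + p ^ padicValNat p l) :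
    finrank C (X m) + Q.card ≤ finrank C (X (m + M)) + 1 := by
  classical
  have h1 := e1_card X hmono hfin e he v hv hv' m Q (fun l hl => ⟨(hQ l hl).1, (hQ l hl).2.1⟩)
  set S : Submodule C V := X m ⊔ Submodule.span C (v '' (Q : Set ℕ)) with hS
  have : FiniteDimensional C (X m) := hfin m
  have : FiniteDimensional C ↥(Submodule.span C (v '' (Q : Set ℕ))) :=
    FiniteDimensional.span_of_finite C ((Finset.finite_toSet _).image v)
  have : FiniteDimensional C S := by
    rw [hS]
    infer_instance
  have : FiniteDimensional C (X (m + M)) := hfin _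
  have h2 := LinearMap.finrank_range_add_finrank_ker (T.domRestrict S)
  have h3 : finrank C (LinearMap.range (T.domRestrict S)) ≤ finrank C (X (m + M)) := by
    refine Submodule.finrank_mono ?_
    rintro _ ⟨⟨x, hx⟩, rfl⟩
    show T x ∈ X (m + M)
    have h4 : S ≤ (X (m + M)).comap T := by
      rw [hS]
      refine sup_le (fun y hy => hT m y hy) (Submodule.span_le.2 ?_)
      rintro _ ⟨l, hl, rfl⟩
      obtain ⟨h5, h6, h7⟩ := hQ l hl
      exact hTv l h5 (m + M) (by omega)
    exact h4 hx
  have h4 : finrank C (LinearMap.ker (T.domRestrict S)) ≤ 1 := by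
    have h5 : finrank C ((LinearMap.ker (T.domRestrict S)).map S.subtype) =
        finrank C (LinearMap.ker (T.domRestrict S)) :=
      Submodule.finrank_map_subtype_eq _ _
    have h6 : (LinearMap.ker (T.domRestrict S)).map S.subtype ≤
        Submodule.span C ({v₀} : Set V) := by
      rintro _ ⟨⟨x, hx⟩, hx2, rfl⟩
      exact hker x hx2
    have h7 : finrank C ↥(Submodule.span C ({v₀} : Set V)) ≤ 1 := by
      have := finrank_span_le_card (R := C) ({v₀} : Set V)
      simpa using this
    have h8 := Submodule.finrank_mono h6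
    omega
  omega

/-- linear growth is impossible for an operator with small kernel which drops the degree of
powers -/
theorem e1_abs {C V : Type} [DivisionRing C] [AddCommGroup V] [Module C V] (p : ℕ)
    [Fact p.Prime] (X : ℕ → Submodule C V) (hmono : Monotone X)
    (hfin : ∀ m, FiniteDimensional C (X m)) (C₂ : ℕ) (hgr : ∀ m, finrank C (X m) ≤ C₂ * (m + 1))
    (T : V →ₗ[C] V) (M : ℕ) (hT : ∀ m, ∀ x ∈ X m, T x ∈ X (m + M)) (v₀ : V)
    (hker : ∀ x, T x = 0 → x ∈ Submodule.span C ({v₀} : Set V)) (e : ℕ) (he : 1 ≤ e) (v : ℕ → V)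
    (hv : ∀ l, 1 ≤ l → v l ∈ X (l * e)) (hv' : ∀ l, 1 ≤ l → v l ∉ X (l * e - 1))
    (hTv : ∀ l, 1 ≤ l → ∀ b, l * e + M ≤ b + p ^ padicValNat p l → T (v l) ∈ X b) : False := by
  classical
  have hp : p.Prime := Fact.out
  have hp0 : 0 < p := hp.pos
  set β : ℕ → ℕ := fun m => finrank C (X m) with hβ
  have hβm : Monotone β := by
    intro m m' hmm
    have := hfin m'
    exact Submodule.finrank_mono (hmono hmm)
  -- the inequality for each N
  have hineq : ∀ N : ℕ, N * p ^ N ≤ p * (M * β (p ^ N * e + M) + p ^ N * e) := by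
    intro N
    set H := p ^ N with hH
    set Y := H * e with hY
    set g : ℕ → ℕ := fun l => p ^ padicValNat p l with hg
    have hQ1 : ∀ l ∈ Finset.Icc 1 H, 1 ≤ l ∧ l * e ≤ Y ∧ g l ≤ l * e ∧ 1 ≤ g l := by
      intro l hl
      rw [Finset.mem_Icc] at hl
      refine ⟨hl.1, Nat.mul_le_mul_right e hl.2, ?_, Nat.one_le_pow _ _ hp0⟩
      have h1 : g l ≤ l := Nat.le_of_dvd (by omega) pow_padicValNat_dvd
      exact h1.trans (Nat.le_mul_of_pos_right l he)
    have hstep : ∀ m ∈ range Y,
        β m + ((Finset.Icc 1 H).filter (fun l => m < l * e ∧ l * e ≤ m + g l)).card ≤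
          β (m + M) + 1 := by
      intro m _
      refine e1_step p X hmono hfin T M hT v₀ hker e he v hv hv' hTv m _ fun l hl => ?_
      rw [Finset.mem_filter] at hl
      exact ⟨(hQ1 l hl.1).1, hl.2.1, hl.2.2⟩
    have hsum := Finset.sum_le_sum hstep
    rw [Finset.sum_add_distrib, Finset.sum_add_distrib, Finset.sum_const, card_range,
      smul_eq_mul, mul_one] at hsum
    have hcount : ∑ l ∈ Finset.Icc 1 H, g l ≤
        ∑ m ∈ range Y, ((Finset.Icc 1 H).filter (fun l => m < l * e ∧ l * e ≤ m + g l)).card := by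
      have e1 : ∀ m, ((Finset.Icc 1 H).filter (fun l => m < l * e ∧ l * e ≤ m + g l)).card =
          ∑ l ∈ Finset.Icc 1 H, if m < l * e ∧ l * e ≤ m + g l then 1 else 0 := fun m => by
        rw [Finset.card_filter]
      simp only [e1]
      rw [Finset.sum_comm]
      refine Finset.sum_le_sum fun l hl => ?_
      obtain ⟨-, h2, h3, h4⟩ := hQ1 l hl
      rw [← Finset.card_filter]
      have hsub : Finset.Ico (l * e - g l) (l * e) ⊆
          (range Y).filter (fun m => m < l * e ∧ l * e ≤ m + g l) := by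
        intro m hm
        rw [mem_Ico] at hm
        rw [mem_filter, mem_range]
        omega
      have h5 := Finset.card_le_card hsub
      rw [Nat.card_Ico] at h5
      omega
    have htel := sum_shift_le β hβm M Y
    have hpp := sum_ppart p N
    have hfinal : ∑ l ∈ Finset.Icc 1 H, g l ≤ M * β (Y + M) + Y := by omega
    exact hpp.trans (Nat.mul_le_mul_left _ hfinal)
  -- numerical contradiction
  set K : ℕ := p * (M * (C₂ * (e + M + 1)) + e) with hK
  have h1 := hineq (K + 1)
  set H := p ^ (K + 1) with hH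
  have hH1 : 1 ≤ H := Nat.one_le_pow _ _ hp0
  have h2 : β (H * e + M) ≤ C₂ * (e + M + 1) * H := by
    refine (hgr _).trans ?_
    have h3 : H * e + M + 1 ≤ (e + M + 1) * H := by nlinarith
    calc C₂ * (H * e + M + 1) ≤ C₂ * ((e + M + 1) * H) := Nat.mul_le_mul_left _ h3
      _ = _ := by ring
  have h4 : p * (M * β (H * e + M) + H * e) ≤ K * H := by
    calc p * (M * β (H * e + M) + H * e) ≤ p * (M * (C₂ * (e + M + 1) * H) + H * e) := by
          gcongr
      _ = K * H := by rw [hK]; ring
  have h5 : (K + 1) * H ≤ K * H := h1.trans h4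
  have h6 := Nat.le_of_mul_le_mul_right h5 (by omega)
  omega

end CG37
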