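import Pool.Agent.BI29.Reduce
import Pool.Agent.CG37.Cent
import Pool.Agent.CG37.E1

/-!
# Linear growth over the centralizer implies finite dimension
-/

set_option autoImplicit false

namespace CG37

open Finset Module FD29 BI29

/-- dimension bound from independent families -/
theorem span_fr {C V : Type} [DivisionRing C] [AddCommGroup V] [Module C V] (s : Set V) (B : ℕ)
    (h : ∀ (N : ℕ) (x : Fin N → V), (∀ i, x i ∈ s) → LinearIndependent C x → N ≤ B) :
    FiniteDimensional C (Submodule.span C s) ∧ finrank C (Submodule.span C s) ≤ B := by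
  classical
  obtain ⟨b, hbs, hspan, hli⟩ := exists_linearIndependent C s
  have hfinset : ∀ t : Finset b, t.card ≤ B := by
    intro t
    refine h t.card (fun i => ((t.equivFin.symm i : b) : V))
      (fun i => hbs (t.equivFin.symm i : b).2) ?_
    exact hli.comp (fun i => (t.equivFin.symm i : b)) (fun i j hij =>
      t.equivFin.symm.injective (Subtype.ext hij))
  have hfin : Finite b := by
    by_contra hinf
    rw [not_finite_iff_infinite] at hinf
    obtain ⟨t, ht⟩ := Infinite.exists_subset_card_eq b (B + 1)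
    have := hfinset t
    omega
  have : Fintype b := Fintype.ofFinite b
  have h1 := hfinset univ
  rw [← hspan]
  refine ⟨FiniteDimensional.span_of_finite C (Set.toFinite b), ?_⟩
  rw [finrank_span_set_eq_card hli, Set.toFinset_card]
  exact h1

variable {κ D : Type} [Field κ] [DivisionRing D] [Algebra κ D]
  {p : ℕ} {G : ℕ → Submodule κ D} {g : ℕ} {u : Fin g → D} {d : Fin g → ℕ} {c E : ℕ}

/-- the commutator with a power -/
theorem comm_pow_mem (h : Cor p G g u d c E) {θ : D} {w : ℕ} (hθ : θ ∈ G w) (j : Fin g) (i : ℕ)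
    (n : ℕ) : θ * (u j ^ p ^ i) ^ (n + 1) - (u j ^ p ^ i) ^ (n + 1) * θ ∈
      G (n * (p ^ i * (d j + 1)) + w + p ^ i * d j) := by
  set U := u j ^ p ^ i with hU
  have hUm : U ∈ G (p ^ i * (d j + 1)) := h.pow_mem (h.umem j) _
  have h0 : θ * U - U * θ ∈ G (w + p ^ i * d j) := by
    have h1 := h.comm j i w θ hθ
    have h2 := Submodule.neg_mem _ h1
    rw [neg_sub] at h2
    exact h2
  induction n with
  | zero =>
    rw [zero_mul, zero_add, zero_add, pow_one]
    exact h0
  | succ n ih =>
    have e1 : θ * U ^ (n + 1 + 1) - U ^ (n + 1 + 1) * θ =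
        (θ * U ^ (n + 1) - U ^ (n + 1) * θ) * U + U ^ (n + 1) * (θ * U - U * θ) := by
      rw [pow_succ U (n + 1)]
      simp only [sub_mul, mul_sub, mul_assoc]
      abel
    rw [e1]
    refine Submodule.add_mem _ ?_ ?_
    · refine h.mono (le_of_eq ?_) (h.mul _ _ _ _ ih hUm)
      ring
    · refine h.mono (le_of_eq ?_) (h.mul _ _ _ _ (h.pow_mem hUm (n + 1)) h0)
      ring

theorem fin_of_growth (h : Cor p G g u d c E) [hp : Fact p.Prime] (θ : D) {w : ℕ} (hθ : θ ∈ G w)
    {C₂ : ℕ} (hC : ∀ (N n : ℕ) (x : Fin n → D), (∀ i, x i ∈ G N) →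
      LinearIndependent (Subring.centralizer ({θ} : Set D)) x → n ≤ C₂ * (N + 1)) :
    FiniteDimensional (Subring.centralizer ({θ} : Set D)) D := by
  classical
  set C := Subring.centralizer ({θ} : Set D) with hCdef
  let X : ℕ → Submodule C D := fun n => Submodule.span C (G n : Set D)
  have hsub : ∀ n, ∀ x ∈ G n, x ∈ X n := fun n x hx => Submodule.subset_span hx
  have hmono : Monotone X := fun a b hab => Submodule.span_mono (h.mono hab)
  have hfr : ∀ n, FiniteDimensional C (X n) ∧ finrank C (X n) ≤ C₂ * (n + 1) := fun n =>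
    span_fr _ _ fun N x hx hli => hC n N x hx hli
  have hsm : ∀ (a : C) (x : D), a • x = (a : D) * x := fun a x => rfl
  have hmul : ∀ (n s : ℕ) (x b : D), x ∈ X n → b ∈ G s → x * b ∈ X (n + s) := by
    intro n s x b hx hb
    refine Submodule.span_induction (p := fun x _ => x * b ∈ X (n + s)) ?_ ?_ ?_ ?_ hx
    · exact fun y hy => hsub _ _ (h.mul _ _ _ _ hy hb)
    · rw [zero_mul]
      exact Submodule.zero_mem _
    · intro y z _ _ hy hz
      rw [add_mul]
      exact Submodule.add_mem _ hy hz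
    · intro a y _ hy
      rw [hsm, mul_assoc, ← hsm]
      exact Submodule.smul_mem _ _ hy
  let T : D →ₗ[C] D :=
    { toFun := fun x => θ * x - x * θ
      map_add' := fun x y => by
        rw [mul_add, add_mul]
        abel
      map_smul' := fun a x => by
        have h1 : θ * (a : D) = a * θ := Subring.mem_centralizer_iff.1 a.2 θ rfl
        rw [RingHom.id_apply, hsm, hsm, mul_sub, ← mul_assoc, h1, mul_assoc, mul_assoc] }
  have hTdef : ∀ x, T x = θ * x - x * θ := fun x => rfl
  have hT : ∀ m, ∀ x ∈ X m, T x ∈ X (m + w) := by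
    intro m x hx
    have h1 : X m ≤ (X (m + w)).comap T := by
      refine Submodule.span_le.2 fun y hy => ?_
      change T y ∈ X (m + w)
      rw [hTdef]
      refine hsub _ _ (Submodule.sub_mem _ ?_ (h.mul _ _ _ _ hy hθ))
      rw [add_comm]
      exact h.mul _ _ _ _ hθ hy
    exact h1 hx
  have hker : ∀ x, T x = 0 → x ∈ Submodule.span C ({1} : Set D) := by
    intro x hx
    rw [hTdef, sub_eq_zero] at hx
    have hxC : x ∈ C := by
      rw [hCdef, Subring.mem_centralizer_iff]
      rintro _ rfl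
      exact hx
    rw [Submodule.mem_span_singleton]
    exact ⟨⟨x, hxC⟩, by rw [hsm, mul_one]⟩
  -- powers of the generators drop
  have hdrop : ∀ j, ∃ l, 1 ≤ l ∧ u j ^ l ∈ X (l * (d j + 1) - 1) := by
    intro j
    by_contra hno
    push Not at hno
    refine e1_abs p X hmono (fun n => (hfr n).1) C₂ (fun n => (hfr n).2) T w hT 1 hker (d j + 1)
      (by omega) (fun l => u j ^ l) (fun l _ => hsub _ _ (h.pow_mem (h.umem j) l)) hno ?_
    intro l hl b hb
    obtain ⟨n, hn⟩ : p ^ padicValNat p l ∣ l := pow_padicValNat_dvd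
    set i := padicValNat p l with hi
    obtain ⟨n', rfl⟩ : ∃ n', n = n' + 1 := by
      refine ⟨n - 1, ?_⟩
      rcases Nat.eq_zero_or_pos n with rfl | h0
      · omega
      · omega
    have h1 := comm_pow_mem h hθ j i n'
    rw [← pow_mul, ← hn] at h1
    refine hmono ?_ (hsub _ _ h1)
    have h2 : l * (d j + 1) + w = n' * (p ^ i * (d j + 1)) + w + p ^ i * d j + p ^ i := by
      rw [hn]
      ring
    omega
  choose l hl1 hl using hdrop
  obtain ⟨i, hi⟩ : ∃ i, ∑ j, l j < p ^ i := ⟨_, Nat.lt_pow_self hp.out.one_lt⟩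
  set Q := p ^ i with hQ
  have hlQ : ∀ j, l j ≤ Q := fun j =>
    ((Finset.single_le_sum (f := l) (fun _ _ => Nat.zero_le _) (mem_univ j)).trans hi.le)
  have hQpos : 1 ≤ Q := by omega
  have hQX : ∀ j, u j ^ Q ∈ X (Q * (d j + 1) - 1) := by
    intro j
    obtain ⟨r, hr⟩ : ∃ r, Q = l j + r := ⟨Q - l j, by have := hlQ j; omega⟩
    have h1 := hmul _ _ _ _ (hl j) (h.pow_mem (h.umem j) r)
    rw [← pow_add, ← hr] at h1
    have h2 : l j * (d j + 1) - 1 + r * (d j + 1) = Q * (d j + 1) - 1 := by
      have h3 : 1 ≤ l j * (d j + 1) := Nat.mul_pos (hl1 j) (by omega)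
      rw [hr, add_mul]
      omega
    rw [h2] at h1
    exact h1
  have hstep : ∀ n, c * Q < n → X n ≤ X (n - 1) := by
    intro n hn
    refine Submodule.span_le.2 fun x hx => ?_
    obtain ⟨y, hy, hxy⟩ := h.div Q n hn x hx
    have h1 : x = (x - ∑ j, u j ^ Q * y j) + ∑ j, u j ^ Q * y j := by rw [sub_add_cancel]
    rw [h1]
    refine Submodule.add_mem _ (hsub _ _ hxy) (Submodule.sum_mem _ fun j _ => ?_)
    rcases hy j with h0 | ⟨h2, h3⟩
    · rw [h0, mul_zero]
      exact Submodule.zero_mem _
    · refine hmono ?_ (hmul _ _ _ _ (hQX j) h3)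
      have h4 : 1 ≤ Q * (d j + 1) := Nat.mul_pos hQpos (by omega)
      have h5 : (d j + 1) * Q = Q * (d j + 1) := mul_comm _ _
      omega
  have hall : ∀ n, X n ≤ X (c * Q) := by
    intro n
    induction n with
    | zero => exact hmono (Nat.zero_le _)
    | succ n ih =>
      rcases le_or_gt (n + 1) (c * Q) with h1 | h1
      · exact hmono h1
      · exact (hstep _ h1).trans ih
  have := (hfr (c * Q)).1
  refine Module.Finite.of_surjective (X (c * Q)).subtype ?_
  intro z
  obtain ⟨n, a, b, ha, hb, hb0, hz⟩ := h.frac z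
  let R : X (c * Q) →ₗ[C] X (c * Q) :=
    { toFun := fun x => ⟨(x : D) * b, hall _ (hmul _ _ _ _ x.2 hb)⟩
      map_add' := fun x y => Subtype.ext (add_mul _ _ _)
      map_smul' := fun a x => Subtype.ext (by
        change (a • (x : D)) * b = a • ((x : D) * b)
        rw [hsm, hsm, mul_assoc]) }
  have hinj : Function.Injective R := by
    intro x y hxy
    apply Subtype.ext
    exact mul_right_cancel₀ hb0 (congrArg Subtype.val hxy)
  obtain ⟨x, hx⟩ := LinearMap.injective_iff_surjective.1 hinj ⟨a, hall _ (hsub _ _ ha)⟩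
  refine ⟨x, ?_⟩
  have h1 : (x : D) * b = a := congrArg Subtype.val hx
  rw [← hz] at h1
  exact mul_right_cancel₀ hb0 h1

end CG37
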