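import Pool.Agent.BI29.Reduce

/-!
# Growth over the centralizer of a transcendental element
-/

set_option autoImplicit false

namespace CG37

open Finset Module FD29 BI29 MvPolynomial

variable {κ D : Type} [Field κ] [DivisionRing D] [Algebra κ D]
  {p : ℕ} {G : ℕ → Submodule κ D} {g : ℕ} {u : Fin g → D} {d : Fin g → ℕ} {c E : ℕ}

/-- the values of a polynomial in central elements are central -/
theorem map_cent {m : ℕ} (ψ : MvPolynomial (Fin m) κ →ₐ[κ] D)
    (hψc : ∀ i, ψ (X i) ∈ Subring.center D) (P : MvPolynomial (Fin m) κ) :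
    ψ P ∈ Subring.center D := by
  induction P using MvPolynomial.induction_on with
  | C a =>
    have h1 : ψ (C a) = algebraMap κ D a := ψ.commutes a
    rw [h1, Subring.mem_center_iff]
    intro x
    exact (Algebra.commutes a x).symm
  | add P Q hP hQ =>
    rw [map_add]
    exact Subring.add_mem _ hP hQ
  | mul_X P i hP =>
    rw [map_mul]
    exact Subring.mul_mem _ hP (hψc i)

/-- a common denominator for central elements -/
theorem exists_den (h : Cor p G g u d c E) {m : ℕ} (z : Fin m → D)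
    (hz : ∀ i, z i ∈ Subring.center D) :
    ∃ (W : ℕ) (y : D), y ≠ 0 ∧ y ∈ G W ∧ ∀ i, z i * y ∈ G W := by
  classical
  have key : ∀ s : Finset (Fin m), ∃ (W : ℕ) (y : D), y ≠ 0 ∧ y ∈ G W ∧
      ∀ i ∈ s, z i * y ∈ G W := by
    intro s
    induction s using Finset.induction_on with
    | empty => exact ⟨0, 1, one_ne_zero, h.one, fun i hi => absurd hi (Finset.notMem_empty i)⟩
    | insert i s hi ih =>
      obtain ⟨W, y, hy0, hyW, hys⟩ := ih
      obtain ⟨n, a, b, ha, hb, hb0, hzb⟩ := h.frac (z i)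
      refine ⟨W + n, y * b, mul_ne_zero hy0 hb0, h.mul _ _ _ _ hyW hb, ?_⟩
      intro l hl
      rw [mem_insert] at hl
      rcases hl with rfl | hl
      · have h1 : z l * (y * b) = y * a := by
          rw [← mul_assoc, ← Subring.mem_center_iff.1 (hz l) y, mul_assoc, hzb]
        rw [h1]
        exact h.mul _ _ _ _ hyW ha
      · rw [← mul_assoc]
        exact h.mul _ _ _ _ (hys l hl) hb
  obtain ⟨W, y, h1, h2, h3⟩ := key univ
  exact ⟨W, y, h1, h2, fun i => h3 i (mem_univ i)⟩

theorem mon_mem_G (h : Cor p G g u d c E) {m : ℕ} (ψ : MvPolynomial (Fin m) κ →ₐ[κ] D)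
    (hψc : ∀ i, ψ (X i) ∈ Subring.center D) {W : ℕ} {y : D} (hy : y ∈ G W)
    (hzy : ∀ i, ψ (X i) * y ∈ G W) (J : Fin m →₀ ℕ) :
    ∀ N, ∑ i, J i ≤ N → ψ (monomial J 1) * y ^ N ∈ G (N * W) := by
  classical
  induction J using Finsupp.induction_linear with
  | zero =>
    intro N _
    have : (monomial 0 (1 : κ)) = (1 : MvPolynomial (Fin m) κ) := rfl
    rw [this, map_one, one_mul]
    exact h.pow_mem hy N
  | add K L hK hL =>
    intro N hN
    have a1 : (monomial (K + L) (1 : κ)) =
        (monomial K 1 * monomial L 1 : MvPolynomial (Fin m) κ) := by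
      rw [monomial_mul, mul_one]
    have hN' : ∑ i, K i + ∑ i, L i ≤ N := by
      rw [← Finset.sum_add_distrib]
      exact hN
    obtain ⟨N2, rfl⟩ : ∃ N2, N = ∑ i, K i + N2 := ⟨N - ∑ i, K i, by omega⟩
    have h1 := h.mul _ _ _ _ (hK _ le_rfl) (hL N2 (by omega))
    have h2 : ψ (monomial (K + L) 1) * y ^ (∑ i, K i + N2) =
        ψ (monomial K 1) * y ^ (∑ i, K i) * (ψ (monomial L 1) * y ^ N2) := by
      rw [a1, map_mul, pow_add, mul_assoc, mul_assoc, ← mul_assoc (y ^ _) (ψ _),
        Subring.mem_center_iff.1 (map_cent ψ hψc (monomial L 1)) (y ^ (∑ i, K i)), ← mul_assoc,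
        ← mul_assoc, ← mul_assoc, ← mul_assoc]
    rw [h2, add_mul]
    exact h1
  | single i e =>
    intro N hN
    have a1 : (monomial (Finsupp.single i e) (1 : κ)) = (X i ^ e : MvPolynomial (Fin m) κ) := by
      rw [X_pow_eq_monomial]
    have h1 : ∑ j, (Finsupp.single i e) j = e := by
      rw [Finset.sum_eq_single i]
      · rw [Finsupp.single_eq_same]
      · intro j _ hj
        rw [Finsupp.single_eq_of_ne hj]
      · intro h2
        exact absurd (mem_univ i) h2
    rw [h1] at hN
    obtain ⟨N2, rfl⟩ : ∃ N2, N = e + N2 := ⟨N - e, by omega⟩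
    have hcomm : Commute (ψ (X i)) y := (Subring.mem_center_iff.1 (hψc i) y).symm
    rw [a1, map_pow, pow_add, ← mul_assoc, ← hcomm.mul_pow, add_mul]
    exact h.mul _ _ _ _ (h.pow_mem (hzy i) e) (h.pow_mem hy N2)

theorem growth_cent (h : Cor p G g u d c E) {ρ C₀ m : ℕ}
    (hgr : ∀ N, finrank κ (G N) ≤ C₀ * (N + 1) ^ ρ) (hρ : ρ ≤ m + 2)
    (ψ : MvPolynomial (Fin m) κ →ₐ[κ] D) (hψ : Function.Injective ψ)
    (hψc : ∀ i, ψ (MvPolynomial.X i) ∈ Subring.center D) (θ : D) {w : ℕ} (hθ : θ ∈ G w)
    (htr : ∀ P : Polynomial (Subring.center D), Polynomial.aeval θ P = 0 → P = 0) :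
    ∃ C₂ : ℕ, ∀ (N n : ℕ) (x : Fin n → D), (∀ i, x i ∈ G N) →
      LinearIndependent (Subring.centralizer ({θ} : Set D)) x → n ≤ C₂ * (N + 1) := by
  classical
  obtain ⟨W, y, hy0, hyW, hzy⟩ := exists_den h (fun i => ψ (X i)) hψc
  refine ⟨C₀ * (w + m * W + 1) ^ (m + 2), fun N n x hx hli => ?_⟩
  set S := N + 1 with hS
  let mo : (Fin m → Fin S) → MvPolynomial (Fin m) κ := fun J =>
    monomial (Finsupp.equivFunOnFinite.symm fun j => (J j : ℕ)) 1
  let v : Fin n × ((Fin m → Fin S) × Fin S) → D := fun q =>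
    θ ^ (q.2.2 : ℕ) * x q.1 * (ψ (mo q.2.1) * y ^ (m * S))
  have hvG : ∀ q, v q ∈ G (S * w + N + m * S * W) := by
    intro q
    refine h.mul _ _ _ _ (h.mul _ _ _ _ ?_ (hx q.1)) ?_
    · exact h.mono (Nat.mul_le_mul_right _ q.2.2.2.le) (h.pow_mem hθ _)
    · refine mon_mem_G h ψ hψc hyW hzy _ _ ?_
      calc ∑ i, (Finsupp.equivFunOnFinite.symm fun j => ((q.2.1 j : Fin S) : ℕ)) i
          ≤ ∑ _i : Fin m, S := Finset.sum_le_sum fun i _ => (q.2.1 i).2.le
        _ = m * S := by rw [Finset.sum_const, card_univ, Fintype.card_fin, smul_eq_mul]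
  have hvli : LinearIndependent κ v := by
    rw [Fintype.linearIndependent_iff]
    intro t ht
    let P : Fin n → Fin S → MvPolynomial (Fin m) κ := fun i β =>
      ∑ J, t (i, (J, β)) • mo J
    have h1 : ∑ i, (∑ β : Fin S, θ ^ (β : ℕ) * ψ (P i β)) * x i = 0 := by
      apply mul_right_cancel₀ (pow_ne_zero (m * S) hy0)
      rw [zero_mul, ← ht, Fintype.sum_prod_type, Finset.sum_mul]
      refine Finset.sum_congr rfl fun i _ => ?_
      rw [Fintype.sum_prod_type, Finset.sum_comm, Finset.sum_mul, Finset.sum_mul]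
      refine Finset.sum_congr rfl fun β _ => ?_
      simp only [P, map_sum, map_smul, Finset.mul_sum, Finset.sum_mul]
      refine Finset.sum_congr rfl fun J _ => ?_
      have hc := Subring.mem_center_iff.1 (map_cent ψ hψc (mo J)) (x i)
      change θ ^ (β : ℕ) * t (i, J, β) • ψ (mo J) * x i * y ^ (m * S) =
        t (i, J, β) • (θ ^ (β : ℕ) * x i * (ψ (mo J) * y ^ (m * S)))
      rw [mul_smul_comm, smul_mul_assoc, smul_mul_assoc]
      congr 1
      rw [mul_assoc (θ ^ (β : ℕ)), ← hc]
      simp only [mul_assoc]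
    have hcen : ∀ i, (∑ β : Fin S, θ ^ (β : ℕ) * ψ (P i β)) ∈
        Subring.centralizer ({θ} : Set D) := by
      intro i
      refine Subring.sum_mem _ fun β _ => Subring.mul_mem _ ?_ ?_
      · rw [Subring.mem_centralizer_iff]
        rintro _ rfl
        exact (Commute.self_pow _ _).eq
      · exact Subring.center_le_centralizer _ (map_cent ψ hψc _)
    have h2 := Fintype.linearIndependent_iff.1 hli (fun i => ⟨_, hcen i⟩) h1
    rintro ⟨i, J, β⟩
    have h3 : ∑ β : Fin S, θ ^ (β : ℕ) * ψ (P i β) = 0 := congrArg Subtype.val (h2 i)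
    let Q : Polynomial (Subring.center D) :=
      ∑ β : Fin S, Polynomial.monomial (β : ℕ) (⟨ψ (P i β), map_cent ψ hψc _⟩ : Subring.center D)
    have hQ : Q = 0 := by
      apply htr
      rw [map_sum, ← h3]
      refine Finset.sum_congr rfl fun β _ => ?_
      rw [Polynomial.aeval_monomial]
      exact (Subring.mem_center_iff.1 (map_cent ψ hψc (P i β)) (θ ^ (β : ℕ))).symm
    have h4 : ψ (P i β) = 0 := by
      have h5 := congrArg (fun R => Polynomial.coeff R (β : ℕ)) hQ
      simp only [Q, Polynomial.finsetSum_coeff, Polynomial.coeff_monomial,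
        Polynomial.coeff_zero] at h5
      rw [Finset.sum_eq_single β] at h5
      · rw [if_pos rfl] at h5
        exact congrArg Subtype.val h5
      · intro β' _ hne
        rw [if_neg (fun h6 => hne (Fin.ext h6))]
      · intro h6
        exact absurd (mem_univ β) h6
    have h5 : P i β = 0 := hψ (by rw [h4, map_zero])
    have h6 := congrArg (coeff (Finsupp.equivFunOnFinite.symm fun j => ((J j : Fin S) : ℕ))) h5
    simp only [P, coeff_sum, coeff_zero, coeff_smul] at h6
    rw [Finset.sum_eq_single J] at h6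
    · simp only [mo] at h6
      rw [coeff_monomial, if_pos rfl, smul_eq_mul, mul_one] at h6
      exact h6
    · intro J' _ hne
      simp only [mo]
      rw [coeff_monomial, if_neg, smul_zero]
      intro h7
      apply hne
      funext j
      exact Fin.ext (congrFun (Finsupp.equivFunOnFinite.symm.injective h7) j)
    · intro h7
      exact absurd (mem_univ J) h7
  have := h.fin (S * w + N + m * S * W)
  have hcard : Fintype.card (Fin n × ((Fin m → Fin S) × Fin S)) ≤
      finrank κ (G (S * w + N + m * S * W)) := by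
    let v' : Fin n × ((Fin m → Fin S) × Fin S) → G (S * w + N + m * S * W) := fun q =>
      ⟨v q, hvG q⟩
    have h1 : LinearIndependent κ v' := by
      refine LinearIndependent.of_comp (Submodule.subtype _) ?_
      exact hvli
    exact h1.fintype_card_le_finrank
  rw [Fintype.card_prod, Fintype.card_prod, Fintype.card_fun, Fintype.card_fin, Fintype.card_fin,
    Fintype.card_fin] at hcard
  have h1 : S * w + N + m * S * W + 1 = (w + m * W + 1) * S := by
    rw [hS]
    ring
  have h2 : n * (S ^ m * S) ≤ C₀ * ((w + m * W + 1) * S) ^ (m + 2) := by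
    refine hcard.trans ((hgr _).trans ?_)
    rw [h1]
    refine Nat.mul_le_mul_left _ (Nat.pow_le_pow_right ?_ hρ)
    rw [hS]
    positivity
  have h3 : C₀ * ((w + m * W + 1) * S) ^ (m + 2) =
      (C₀ * (w + m * W + 1) ^ (m + 2) * S) * (S ^ m * S) := by
    rw [mul_pow]
    ring
  rw [h3] at h2
  exact Nat.le_of_mul_le_mul_right h2 (by rw [hS]; positivity)

end CG37
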