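import Pool.Agent.BI29.Reduce
import Pool.Agent.FD29.Main
import Pool.Agent.CG37.Gro
import Pool.Agent.CG37.FinD
import Pool.Agent.CG37.Alg
import Pool.Agent.CG37.AlgCase

/-!
# Deformations whose division ring of fractions has a large centre
-/

set_option autoImplicit false

namespace CG37

open Finset Module FD29 BI29

variable {k A0 A : Type} [Field k] [CommRing A0] [IsDomain A0] [Algebra k A0] [Ring A]
  [Algebra k A] {F : ℕ → Submodule k A} {σ : ℕ → A → A0} {𝒜 : ℕ → Submodule k A0}
  [GradedAlgebra 𝒜]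

/-- if the centre is large, every element is algebraic over it -/
theorem alg_of_centre (df : Defo 𝒜 F σ) [Algebra.FiniteType k A0] {p : ℕ} [hp : Fact p.Prime]
    [CharP k p] {D : Type} [DivisionRing D] [Algebra k D] (j : A →ₐ[k] D)
    (hj : Function.Injective j) (hfrac : ∀ z : D, ∃ a b : A, b ≠ 0 ∧ z * j b = j a)
    (hZ : Algebra.trdeg k A0 ≤ Algebra.trdeg k (Subalgebra.center k D) + 2) (a : A) :
    ∃ P : Polynomial (Subring.center D), P ≠ 0 ∧ Polynomial.aeval (j a) P = 0 := by
  classical
  by_contra hno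
  have htr : ∀ P : Polynomial (Subring.center D), Polynomial.aeval (j a) P = 0 → P = 0 := by
    intro P hP
    by_contra h0
    exact hno ⟨P, h0, hP⟩
  have h := df.filt
  obtain ⟨w, iA, i0, hcen, hmem, hsym, hi0, halg0⟩ := exists_base df (p := p)
  obtain ⟨r, C₀, hr, hG⟩ := exists_growth df (p := p) iA i0 hcen hmem hsym hi0 halg0
  have hiA : Function.Injective iA := by
    rw [injective_iff_map_eq_zero]
    intro a ha
    apply hi0
    rw [← hsym, ha, h.sym_zero, map_zero]
  have hcD : ∀ a, j (iA a) ∈ Subring.center D := by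
    intro a
    rw [Subring.mem_center_iff]
    intro z
    obtain ⟨x, y, hy, hz⟩ := hfrac z
    have hy0 : j y ≠ 0 := fun h0 => hy (hj (by rw [h0, map_zero]))
    apply mul_right_cancel₀ hy0
    rw [mul_assoc, ← map_mul, hcen, map_mul, ← mul_assoc, hz, ← map_mul, ← hcen, map_mul,
      mul_assoc, hz]
  let fR : MvPolynomial w k →+* Subring.center D :=
    RingHom.codRestrict ((j : A →+* D).comp (iA : MvPolynomial w k →+* A)) (Subring.center D) hcD
  have hfR : Function.Injective fR := by
    intro a b hab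
    exact hiA (hj (congrArg Subtype.val hab))
  let K := FractionRing (MvPolynomial w k)
  let fK : K →+* Subring.center D := IsFractionRing.lift (g := fR) hfR
  letI : Algebra K D := ((Subring.center D).subtype.comp fK).toAlgebra' (fun c x => by
    exact (Subring.mem_center_iff.1 (fK c).2 x).symm)
  have hKD : ∀ a : MvPolynomial w k, algebraMap K D (algebraMap _ K a) = j (iA a) := by
    intro a
    change ((fK (algebraMap _ K a) : Subring.center D) : D) = _
    have : fK (algebraMap _ K a) = fR a := IsFractionRing.lift_algebraMap hfR a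
    rw [this]
    rfl
  haveI : IsScalarTower k K D := by
    refine IsScalarTower.of_algebraMap_eq fun c => ?_
    rw [IsScalarTower.algebraMap_apply k (MvPolynomial w k) K, hKD, AlgHom.commutes,
      AlgHom.commutes]
  haveI : CharP K p := charP_of_injective_algebraMap (algebraMap k K).injective p
  obtain ⟨G, g, u, d, c, E, hcor, hgr, hsub⟩ := main_aux df (p := p) j hj hfrac (K := K) r C₀ (by
    intro m N x hx hli
    refine hG m N x hx fun c hc => ?_
    have h1 : ∑ i, (algebraMap _ K (c i)) • j (x i) = 0 := by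
      have h2 : ∀ i, (algebraMap _ K (c i)) • j (x i) = j (iA (c i) * x i) := by
        intro i
        rw [Algebra.smul_def, hKD, map_mul]
      rw [Finset.sum_congr rfl fun i _ => h2 i, ← map_sum, hc, map_zero]
    have h3 := Fintype.linearIndependent_iff.1 hli _ h1
    funext i
    exact IsFractionRing.injective (MvPolynomial w k) K (by rw [h3 i, Pi.zero_apply, map_zero]))
  have e1 : Algebra.trdeg k K = Algebra.trdeg k (MvPolynomial w k) := trdeg_frac
  rw [← e1] at hr
  obtain ⟨R, hR⟩ := Cardinal.lt_aleph0.1 (trdeg_lt_aleph0_of_finiteType (R := k) (S := A0))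
  rw [hR] at hr hZ
  obtain ⟨t, ht⟩ : ∃ t : ℕ, Algebra.trdeg k K = t := by
    apply Cardinal.lt_aleph0.1
    exact lt_of_le_of_lt ((self_le_add_left _ _).trans hr) Cardinal.natCast_lt_aleph0
  rw [ht] at hr
  have hr' : r + t ≤ R := by exact_mod_cast hr
  have hn0 : ((R - 2 : ℕ) : Cardinal) ≤ Algebra.trdeg k (Subalgebra.center k D) := by
    by_contra hlt
    rw [not_le] at hlt
    obtain ⟨T, hT⟩ := Cardinal.lt_aleph0.1 (hlt.trans Cardinal.natCast_lt_aleph0)
    rw [hT] at hlt hZ
    have h1 : T < R - 2 := by exact_mod_cast hlt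
    have h2 : R ≤ T + 2 := by exact_mod_cast hZ
    omega
  obtain ⟨φ0, hφ0⟩ := exists_poly (k := k) (B := Subalgebra.center k D) (R - 2) hn0
  have hφinj : Function.Injective ((Subalgebra.center k D).val.comp φ0) :=
    Subtype.val_injective.comp hφ0
  obtain ⟨m, ψ, hψ, hψX, hm⟩ := exists_sel (K := K) _ hφinj
  rw [ht] at hm
  have hm' : R - 2 ≤ m + t := by exact_mod_cast hm
  have hψc : ∀ i, ψ (MvPolynomial.X i) ∈ Subring.center D := by
    intro i
    obtain ⟨l, hl⟩ := hψX i
    rw [hl, Subring.mem_center_iff]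
    exact Subalgebra.mem_center_iff.1 (φ0 (MvPolynomial.X l)).2
  obtain ⟨N, hN⟩ := h.exh a
  have hθ := hsub N a hN
  obtain ⟨C₂, hC₂⟩ := growth_cent hcor hgr (by omega) ψ hψ hψc (j a) hθ htr
  exact hno (alg_of_fin (j a) (fin_of_growth hcor (j a) hθ hC₂))

theorem std_of_centre (df : Defo 𝒜 F σ) [Algebra.FiniteType k A0] {p : ℕ} [hp : Fact p.Prime]
    [CharP k p] {D : Type} [DivisionRing D] [Algebra k D] (j : A →ₐ[k] D)
    (hj : Function.Injective j) (hfrac : ∀ z : D, ∃ a b : A, b ≠ 0 ∧ z * j b = j a)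
    (hZ : Algebra.trdeg k A0 ≤ Algebra.trdeg k (Subalgebra.center k D) + 2) :
    ∃ n, StdId A n :=
  std_of_alg df (p := p) j hj hfrac (alg_of_centre df (p := p) j hj hfrac hZ)

end CG37
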